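import Pool.Agent.helper27.PC2.Stmt2
import Pool.Agent.helper26.PC.HREL

/-!
# Module DW: rewriting words in the generators of `W(D_n)`
-/

set_option autoImplicit false

namespace Pool.Agent.helper27.PC

theorem DW_sq (n i : ℕ) : g n i * g n i = 1 := by
  have h2 := NF_g_inv (n := n) i
  calc g n i * g n i = (g n i)⁻¹ * g n i := by rw [h2]
    _ = 1 := inv_mul_cancel _

theorem DW_gD_zero {n : ℕ} (h : 0 < n) : ((gD n 0 : WD n) : W n) = g n 0 * g n 1 * g n 0 := by
  unfold gD
  rw [dif_pos h]
  simp [genD]

theorem DW_gD_pos {n i : ℕ} (h : i < n) (hi : i ≠ 0) : ((gD n i : WD n) : W n) = g n i := by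
  unfold gD
  rw [dif_pos h]
  simp [genD, hi, g, h]

theorem DW_not (p : Bool) {n : ℕ} : (if (!p) then g n 0 else 1) = (if p then g n 0 else 1) * g n 0 := by
  cases p
  · simp
  · simp [DW_sq]

theorem DW : DW_stmt := by
  intro n l
  induction l with
  | nil =>
    intro _ p
    cases p <;> simp [dword, DW_sq]
  | cons a l ih =>
    intro hl p
    have hl' : ∀ i ∈ l, i < n := fun i hi => hl i (List.mem_cons_of_mem _ hi)
    have ha : a < n := hl a List.mem_cons_self
    match a, ha with
    | 0, ha =>
      have h := ih hl' (!p)
      show ((((dword (!p) l).map (gD n)).prod : WD n) : W n) = _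
      rw [h, DW_not, List.map_cons, List.prod_cons, List.count_cons_self]
      have h3 : ((!p) ^^ decide (Odd (l.count 0))) = (p ^^ decide (Odd (l.count 0 + 1))) := by
        by_cases ho : Odd (l.count 0)
        · have : ¬ Odd (l.count 0 + 1) := by
            rw [Nat.not_odd_iff_even]
            exact ho.add_one
          cases p <;> simp [ho, this]
        · have : Odd (l.count 0 + 1) := (Nat.not_odd_iff_even.1 ho).add_one
          cases p <;> simp [ho, this]
      rw [h3]
      simp only [mul_assoc]
    | 1, ha =>
      have h := ih hl' p
      have hc : (1 :: l).count 0 = l.count 0 := by simp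
      rw [hc]
      cases p
      · show ((((1 :: dword false l).map (gD n)).prod : WD n) : W n) = _
        rw [List.map_cons, List.prod_cons, Subgroup.coe_mul, h, DW_gD_pos ha (by norm_num),
          List.map_cons, List.prod_cons]
        simp only [Bool.false_eq_true, if_false, one_mul, mul_assoc]
      · show ((((0 :: dword true l).map (gD n)).prod : WD n) : W n) = _
        rw [List.map_cons, List.prod_cons, Subgroup.coe_mul, h, DW_gD_zero (by omega),
          List.map_cons, List.prod_cons]
        simp only [if_true]
        have : g n 0 * g n 1 * g n 0 * (g n 0 * (l.map (g n)).prod *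
            (if (true ^^ decide (Odd (l.count 0))) = true then g n 0 else 1)) =
            g n 0 * g n 1 * (g n 0 * g n 0) * ((l.map (g n)).prod *
            (if (true ^^ decide (Odd (l.count 0))) = true then g n 0 else 1)) := by
          simp only [mul_assoc]
        rw [this, DW_sq, mul_one]
        simp only [mul_assoc]
    | i + 2, ha =>
      have h := ih hl' p
      have hc : ((i + 2) :: l).count 0 = l.count 0 := by simp
      rw [hc]
      show (((((i + 2) :: dword p l).map (gD n)).prod : WD n) : W n) = _
      rw [List.map_cons, List.prod_cons, Subgroup.coe_mul, h, DW_gD_pos ha (by omega),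
        List.map_cons, List.prod_cons]
      have hcomm : g n 0 * g n (i + 2) = g n (i + 2) * g n 0 := HREL_comm (by omega) ha
      cases p
      · simp only [Bool.false_eq_true, if_false, one_mul, mul_assoc]
      · simp only [if_true]
        have : g n (i + 2) * (g n 0 * (l.map (g n)).prod *
            (if (true ^^ decide (Odd (l.count 0))) = true then g n 0 else 1)) =
            (g n (i + 2) * g n 0) * ((l.map (g n)).prod *
            (if (true ^^ decide (Odd (l.count 0))) = true then g n 0 else 1)) := by
          simp only [mul_assoc]
        rw [this, ← hcomm]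
        simp only [mul_assoc]

end Pool.Agent.helper27.PC
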